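import Pool.Agent.MP_6a4325_al.H62.Base2

/-!
The lemma of Minkowski for torsion free abelian groups that are finitely generated up to `p`-th
roots (row MINK).
-/

set_option autoImplicit false

namespace Pool.Agent.MP_6a4325_al.H63

open Pool.Agent.MP_6a4325_al.H62

/-- the binomial expansion up to the third order -/
theorem binom3 {R : Type} [Ring R] (x : R) (n : ℕ) :
    ∃ w : R, (1 + x) ^ n = 1 + n • x + (n.choose 2) • (x * x) + x * (x * (x * w)) := by
  induction n with
  | zero => exact ⟨0, by simp⟩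
  | succ n ih =>
    obtain ⟨w, hw⟩ := ih
    refine ⟨(n.choose 2) • (1 : R) + w + x * w, ?_⟩
    have hc : (n + 1).choose 2 = n + n.choose 2 := by
      rw [Nat.choose_succ_succ' n 1, Nat.choose_one_right]
    rw [pow_succ', hw, hc]
    simp only [add_mul, mul_add, one_mul, mul_one, add_smul, one_smul, mul_smul_comm, smul_add]
    abel

/-- Bezout in an additive group -/
theorem bez {M : Type} [AddCommGroup M] (S : AddSubgroup M) {a b : ℕ} (hab : a.Coprime b) (x : M)
    (ha : a • x ∈ S) (hb : b • x ∈ S) : x ∈ S := by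
  have h : IsCoprime (a : ℤ) (b : ℤ) := Nat.isCoprime_iff_coprime.2 hab
  obtain ⟨u, v, huv⟩ := h
  have : x = u • (a • x) + v • (b • x) := by
    rw [← natCast_zsmul, ← natCast_zsmul, smul_smul, smul_smul, ← add_smul, huv, one_smul]
  rw [this]
  exact S.add_mem (S.zsmul_mem ha u) (S.zsmul_mem hb v)

/-- the multiples -/
def mult (M : Type) [AddCommGroup M] (n : ℕ) : AddSubgroup M := (nsmulAddMonoidHom n).range

theorem mem_mult {M : Type} [AddCommGroup M] {n : ℕ} {x : M} :
    x ∈ mult M n ↔ ∃ y : M, n • y = x := Iff.rfl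

/-- the step of the argument of Minkowski -/
theorem core {M : Type} [AddCommGroup M] (htf : ∀ n : ℕ, n ≠ 0 → ∀ x : M, n • x = 0 → x = 0)
    {l q : ℕ} (hl : l.Prime) (hl2 : l ≠ 2) (hq : q.Prime) (D : AddMonoid.End M)
    (hD : (1 + D) ^ q = 1) (j : ℕ) (h : ∀ a, ∃ b, D a = l ^ (j + 1) • b) (a : M) :
    ∃ b, D a = l ^ (j + 2) • b := by
  obtain ⟨w, hw⟩ := binom3 D q
  rw [hD] at hw
  have h0 : q • D + (q.choose 2) • (D * D) + D * (D * (D * w)) = 0 := by
    have : (1 : AddMonoid.End M) + (q • D + (q.choose 2) • (D * D) + D * (D * (D * w))) = 1 + 0 := by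
      rw [add_zero, ← add_assoc, ← add_assoc]; exact hw.symm
    exact add_left_cancel this
  have h1 : q • D a + (q.choose 2) • D (D a) + D (D (D (w a))) = 0 := by
    exact congrArg (fun f : AddMonoid.End M => f a) h0
  obtain ⟨b, hb⟩ := h a
  obtain ⟨c, hc⟩ := h b
  obtain ⟨e₁, he₁⟩ := h (w a)
  obtain ⟨e₂, he₂⟩ := h e₁
  obtain ⟨e₃, he₃⟩ := h e₂
  set N := l ^ (j + 1) with hN
  have hN0 : N ≠ 0 := pow_ne_zero _ hl.ne_zero
  have h2 : q • b + (q.choose 2) • N • c + N • N • e₃ = 0 := by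
    apply htf N hN0
    rw [he₁, map_nsmul, he₂, map_nsmul, map_nsmul, he₃, hb, map_nsmul, hc] at h1
    rw [← h1]
    simp only [smul_add, smul_smul]
    congr 2
    · rw [mul_comm]
    · congr 1; ring
  have hbl : b ∈ mult M l := by
    have hNl : N = l * l ^ j := by rw [hN, pow_succ']
    by_cases hql : q = l
    · subst hql
      obtain ⟨r, hr⟩ : q ∣ q.choose 2 :=
        hq.dvd_choose_self two_ne_zero (lt_of_le_of_ne hq.two_le (Ne.symm hl2))
      have h3 : b + r • N • c + q ^ j • N • e₃ = 0 := by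
        apply htf q hq.ne_zero
        rw [← h2, hr]
        simp only [smul_add, smul_smul]
        congr 2
        · rw [mul_assoc]
        · rw [← mul_assoc, ← hNl]
      refine ⟨-(r • q ^ j • c + q ^ j • q ^ j • e₃), ?_⟩
      have h4 : b = -(r • N • c + q ^ j • N • e₃) := by
        rw [add_assoc] at h3
        exact eq_neg_of_add_eq_zero_left h3
      rw [h4, hNl]
      simp only [nsmulAddMonoidHom_apply, smul_neg, smul_add, smul_smul]
      congr 3 <;> ring
    · refine bez (mult M l) ((Nat.coprime_primes hq hl).2 hql) b ?_ ⟨b, rfl⟩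
      refine ⟨-((q.choose 2) • l ^ j • c + l ^ j • N • e₃), ?_⟩
      have h4 : q • b = -((q.choose 2) • N • c + N • N • e₃) := by
        rw [add_assoc] at h2
        exact eq_neg_of_add_eq_zero_left h2
      rw [h4]
      simp only [nsmulAddMonoidHom_apply, smul_neg, smul_add, smul_smul]
      congr 3
      · rw [hNl]; ring
      · rw [← mul_assoc, ← hNl]
  obtain ⟨b', hb'⟩ := mem_mult.1 hbl
  refine ⟨b', ?_⟩
  rw [hb, ← hb', smul_smul, hN, ← pow_succ]

/-- no nonzero element is divisible by all powers of `l` -/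
theorem krull {M : Type} [AddCommGroup M] (htf : ∀ n : ℕ, n ≠ 0 → ∀ x : M, n • x = 0 → x = 0)
    {p l : ℕ} (hp : p.Prime) (hl : l.Prime) (hpl : p ≠ l) (T : Finset M)
    (hT : ∀ a : M, ∃ j : ℕ, p ^ j • a ∈ AddSubgroup.closure (↑T : Set M)) (a : M)
    (ha : ∀ j : ℕ, ∃ b, a = l ^ j • b) : a = 0 := by
  set A₀ : Submodule ℤ M := Submodule.span ℤ (↑T : Set M) with hA₀
  have hT' : ∀ a : M, ∃ j : ℕ, p ^ j • a ∈ A₀ := by
    intro a
    obtain ⟨j, hj⟩ := hT a
    refine ⟨j, ?_⟩
    rw [← Submodule.span_int_eq_addSubgroupClosure] at hj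
    exact hj
  have : Module.Finite ℤ A₀ := Module.Finite.span_of_finite ℤ T.finite_toSet
  have : IsAddTorsionFree M := by
    refine ⟨fun n hn x y hxy => ?_⟩
    have : n • (x - y) = 0 := by
      rw [smul_sub]; exact sub_eq_zero.2 hxy
    exact sub_eq_zero.1 (htf n hn _ this)
  obtain ⟨i, hi⟩ := hT' a
  have hI : Ideal.span {(l : ℤ)} ≠ ⊤ := by
    rw [Ne, Ideal.span_singleton_eq_top]
    exact (Nat.prime_iff_prime_int.1 hl).not_isUnit
  have hK := Ideal.iInf_pow_smul_eq_bot_of_isTorsionFree (M := A₀) (I := Ideal.span {(l : ℤ)}) hI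
  have hmem : (⟨p ^ i • a, hi⟩ : A₀) ∈
      (⨅ j : ℕ, (Ideal.span {(l : ℤ)}) ^ j • ⊤ : Submodule ℤ A₀) := by
    rw [Submodule.mem_iInf]
    intro j
    obtain ⟨b, hb⟩ := ha j
    obtain ⟨s, hs⟩ := hT' b
    have hlj : (l : ℤ) ^ j ∈ (Ideal.span {(l : ℤ)}) ^ j :=
      Ideal.pow_mem_pow (Ideal.mem_span_singleton_self _) j
    refine bez ((Ideal.span {(l : ℤ)}) ^ j • ⊤ : Submodule ℤ A₀).toAddSubgroup
      (a := p ^ s) (b := l ^ j) (Nat.Coprime.pow _ _ ((Nat.coprime_primes hp hl).2 hpl)) _ ?_ ?_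
    · have h1 : p ^ s • (⟨p ^ i • a, hi⟩ : A₀) =
          (l : ℤ) ^ j • (p ^ i • (⟨p ^ s • b, hs⟩ : A₀)) := by
        apply Subtype.ext
        have : ((l : ℤ) ^ j) = ((l ^ j : ℕ) : ℤ) := by push_cast; rfl
        rw [this, natCast_zsmul]
        simp only [AddSubmonoidClass.coe_nsmul, hb, smul_smul]
        congr 1; ring
      rw [h1]
      exact Submodule.smul_mem_smul hlj Submodule.mem_top
    · have h1 : l ^ j • (⟨p ^ i • a, hi⟩ : A₀) = (l : ℤ) ^ j • (⟨p ^ i • a, hi⟩ : A₀) := by
        have : ((l : ℤ) ^ j) = ((l ^ j : ℕ) : ℤ) := by push_cast; rfl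
        rw [this, natCast_zsmul]
      rw [h1]
      exact Submodule.smul_mem_smul hlj Submodule.mem_top
  rw [hK, Submodule.mem_bot] at hmem
  exact htf (p ^ i) (pow_ne_zero _ hp.ne_zero) a (congrArg Subtype.val hmem)

/-- the congruence subgroup -/
def cong {A L : Type} [CommGroup A] [Group L] (φ : L →* MulAut A) (l : ℕ) : Subgroup L where
  carrier := {g | ∀ a : A, ∃ b : A, φ g a = a * b ^ l}
  one_mem' := fun a => ⟨1, by simp⟩
  mul_mem' := by
    intro g h hg hh a
    obtain ⟨b, hb⟩ := hh a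
    obtain ⟨c, hc⟩ := hg a
    refine ⟨c * φ g b, ?_⟩
    rw [map_mul, MulAut.mul_apply, hb, map_mul, map_pow, hc, mul_pow, mul_assoc]
  inv_mem' := by
    intro g hg a
    obtain ⟨b, hb⟩ := hg (φ g⁻¹ a)
    refine ⟨b⁻¹, ?_⟩
    rw [← MulAut.mul_apply, ← map_mul, mul_inv_cancel, map_one, MulAut.one_apply] at hb
    rw [inv_pow, eq_mul_inv_iff_mul_eq]
    exact hb.symm

theorem cong_finiteIndex {A L : Type} [CommGroup A] [Group L] (φ : L →* MulAut A) {p l : ℕ}
    (hp : p.Prime) (hl : l.Prime) (hpl : p ≠ l) (T : Finset A)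
    (hT : ∀ a : A, ∃ j : ℕ, a ^ p ^ j ∈ Subgroup.closure (↑T : Set A)) :
    (cong φ l).FiniteIndex := by
  classical
  set P : Subgroup A := (powMonoidHom l : A →* A).range with hP
  have hPm : ∀ x : A, x ∈ P ↔ ∃ b : A, b ^ l = x := fun x => Iff.rfl
  have hfg : Group.FG (A ⧸ P) := by
    rw [Group.fg_iff]
    refine ⟨QuotientGroup.mk' P '' (↑T : Set A), ?_, T.finite_toSet.image _⟩
    rw [eq_top_iff]
    intro x _
    obtain ⟨a, rfl⟩ := QuotientGroup.mk'_surjective P x
    obtain ⟨j, hj⟩ := hT a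
    have h1 : QuotientGroup.mk' P a ^ p ^ j ∈
        Subgroup.closure (QuotientGroup.mk' P '' (↑T : Set A)) := by
      rw [← MonoidHom.map_closure, ← map_pow]
      exact Subgroup.mem_map_of_mem _ hj
    have h2 : QuotientGroup.mk' P a ^ l = 1 := by
      rw [← map_pow, QuotientGroup.mk'_apply, QuotientGroup.eq_one_iff]
      exact ⟨a, rfl⟩
    have h : IsCoprime ((p ^ j : ℕ) : ℤ) (l : ℤ) :=
      Nat.isCoprime_iff_coprime.2 (Nat.Coprime.pow_left _ ((Nat.coprime_primes hp hl).2 hpl))
    obtain ⟨u, v, huv⟩ := h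
    have h3 : QuotientGroup.mk' P a =
        (QuotientGroup.mk' P a ^ p ^ j) ^ u * (QuotientGroup.mk' P a ^ l) ^ v := by
      rw [← zpow_natCast, ← zpow_natCast, ← zpow_mul, ← zpow_mul, ← zpow_add, mul_comm _ u,
        mul_comm _ v, huv, zpow_one]
    rw [h3, h2, one_zpow, mul_one]
    exact Subgroup.zpow_mem _ h1 u
  have htor : IsMulTorsion (A ⧸ P) := by
    intro x
    obtain ⟨a, rfl⟩ := QuotientGroup.mk'_surjective P x
    refine isOfFinOrder_iff_pow_eq_one.2 ⟨l, hl.pos, ?_⟩
    rw [← map_pow, QuotientGroup.mk'_apply, QuotientGroup.eq_one_iff]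
    exact ⟨a, rfl⟩
  have : Finite (A ⧸ P) := CommGroup.finite_of_fg_isMulTorsion (A ⧸ P) htor
  have hle : ∀ g : L, P ≤ P.comap (φ g : A →* A) := by
    intro g x hx
    obtain ⟨b, rfl⟩ := (hPm x).1 hx
    exact (hPm _).2 ⟨φ g b, by simp⟩
  let θ : L →* Monoid.End (A ⧸ P) :=
    { toFun := fun g => QuotientGroup.map P P (φ g : A →* A) (hle g)
      map_one' := by
        apply MonoidHom.ext
        intro x
        obtain ⟨a, rfl⟩ := QuotientGroup.mk_surjective x
        simp
        rfl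
      map_mul' := by
        intro g h
        apply MonoidHom.ext
        intro x
        obtain ⟨a, rfl⟩ := QuotientGroup.mk_surjective x
        simp
        rfl }
  have : Finite (Monoid.End (A ⧸ P)) := DFunLike.finite _
  have hker : θ.toHomUnits.ker ≤ cong φ l := by
    intro g hg a
    have h1 : θ g = 1 := by
      have := congrArg Units.val (MonoidHom.mem_ker.1 hg)
      simpa using this
    have h2 : (QuotientGroup.mk a : A ⧸ P) = QuotientGroup.mk (φ g a) := by
      exact (congrArg (fun f : Monoid.End (A ⧸ P) => f (QuotientGroup.mk a)) h1).symm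
    obtain ⟨b, hb⟩ := (hPm _).1 (QuotientGroup.eq.1 h2)
    exact ⟨b, by rw [hb, mul_inv_cancel_left]⟩
  exact Subgroup.finiteIndex_of_le hker

theorem mink : SMink := by
  intro p hp A L _ _ φ hφ htf hT
  obtain ⟨T, hT⟩ := hT
  obtain ⟨l, hlp, hl⟩ := Nat.exists_infinite_primes (p + 3)
  have hpl : p ≠ l := by omega
  have hl2 : l ≠ 2 := by omega
  refine ⟨cong φ l, cong_finiteIndex φ hp.out hl hpl T hT, ?_⟩
  have htf' : ∀ n : ℕ, n ≠ 0 → ∀ x : Additive A, n • x = 0 → x = 0 := by
    intro n hn x hx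
    have h1 : IsOfFinOrder (Additive.toMul x) :=
      isOfFinOrder_iff_pow_eq_one.2 ⟨n, Nat.pos_of_ne_zero hn, by
        rw [← toMul_nsmul, hx, toMul_zero]⟩
    have h2 := htf _ (Subgroup.mem_top _) h1
    exact Additive.toMul.injective h2
  let ρ : L →* AddMonoid.End (Additive A) :=
    { toFun := fun g => MonoidHom.toAdditive (φ g : A →* A)
      map_one' := by
        apply AddMonoidHom.ext
        intro x
        simp
        rfl
      map_mul' := by
        intro g h
        apply AddMonoidHom.ext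
        intro x
        simp
        rfl }
  have hρ : ∀ (g : L) (a : A), ρ g (Additive.ofMul a) = Additive.ofMul (φ g a) := fun _ _ => rfl
  have hT' : ∀ a : Additive A, ∃ j : ℕ,
      p ^ j • a ∈ AddSubgroup.closure (↑(T.map Additive.ofMul.toEmbedding) : Set (Additive A)) := by
    intro a
    obtain ⟨j, hj⟩ := hT (Additive.toMul a)
    refine ⟨j, ?_⟩
    have h1 : ∀ x ∈ Subgroup.closure (↑T : Set A), Additive.ofMul x ∈
        AddSubgroup.closure (↑(T.map Additive.ofMul.toEmbedding) : Set (Additive A)) := by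
      intro x hx
      induction hx using Subgroup.closure_induction with
      | mem x hx =>
        apply AddSubgroup.subset_closure
        simpa using hx
      | one => exact AddSubgroup.zero_mem _
      | mul x y _ _ hx hy => exact AddSubgroup.add_mem _ hx hy
      | inv x _ hx => exact AddSubgroup.neg_mem _ hx
    exact h1 _ hj
  have hprime : ∀ q : ℕ, q.Prime → ∀ g ∈ cong φ l, g ^ q = 1 → g = 1 := by
    intro q hq g hg hgq
    have hD : (1 + (ρ g - 1)) ^ q = 1 := by
      rw [add_sub_cancel, ← map_pow, hgq, map_one]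
    have hall : ∀ j : ℕ, ∀ a, ∃ b, (ρ g - 1) a = l ^ (j + 1) • b := by
      intro j
      induction j with
      | zero =>
        intro a
        obtain ⟨b, hb⟩ := hg (Additive.toMul a)
        refine ⟨Additive.ofMul b, ?_⟩
        have h1 : ρ g a = a + l • Additive.ofMul b := by
          rw [← ofMul_toMul a, hρ, hb]; rfl
        have h2 : (ρ g - 1) a = ρ g a - a := rfl
        rw [h2, h1, zero_add, pow_one, add_sub_cancel_left]
      | succ j ih => exact core htf' hl hl2 hq _ hD j ih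
    apply hφ
    rw [map_one]
    apply MulEquiv.ext
    intro a
    have h0 : (ρ g - 1) (Additive.ofMul a) = 0 := by
      refine krull htf' hp.out hl hpl _ hT' _ fun j => ?_
      obtain ⟨b, hb⟩ := hall j (Additive.ofMul a)
      exact ⟨l • b, by rw [hb, smul_smul, pow_succ]⟩
    have h2 : (ρ g - 1) (Additive.ofMul a) = ρ g (Additive.ofMul a) - Additive.ofMul a := rfl
    rw [h2, sub_eq_zero, hρ] at h0
    exact Additive.ofMul.injective h0
  have hall : ∀ n : ℕ, n ≠ 0 → ∀ g ∈ cong φ l, g ^ n = 1 → g = 1 := by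
    intro n
    induction n using induction_on_primes with
    | zero => intro h; exact absurd rfl h
    | one => intro _ g _ h; simpa using h
    | prime_mul q a hq ih =>
      intro hn g hg h
      have ha : a ≠ 0 := right_ne_zero_of_mul hn
      refine ih ha g hg (hprime q hq _ (Subgroup.pow_mem _ hg a) ?_)
      rw [← pow_mul, mul_comm, h]
  intro g hg hfin
  obtain ⟨n, hn, h⟩ := isOfFinOrder_iff_pow_eq_one.1 hfin
  exact hall n hn.ne' g hg h

end Pool.Agent.MP_6a4325_al.H63
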